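import Pool.Agent.H705.FP.Stm2

/-! # Project FP, part CNT (helper235): a sum over well counted points -/

set_option autoImplicit false

namespace Pool.Agent.H235.FP

open Finset Pool.Agent.H705.FP

/-- the comparison function on the integers -/
noncomputable def Gz (z : ℤ) : ℝ := (1 + 2 * Real.log (|(z : ℝ)| + 2)) / (1 + (z : ℝ) ^ 2)

theorem log_nn (x : ℝ) (hx : 0 ≤ x) : 0 ≤ Real.log (x + 2) := Real.log_nonneg (by linarith)

theorem Gz_nonneg (z : ℤ) : 0 ≤ Gz z := by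
  unfold Gz
  have := log_nn |(z : ℝ)| (abs_nonneg _)
  positivity

theorem Gn_le (d : ℕ) : (1 + 2 * Real.log ((d : ℝ) + 2)) / (1 + (d : ℝ) ^ 2) ≤
    18 * (1 / ((d + 1 : ℕ) : ℝ) ^ ((3 : ℝ) / 2)) := by
  have hd : (0 : ℝ) ≤ d := Nat.cast_nonneg d
  set x : ℝ := (d : ℝ) + 1 with hx
  have hx1 : 1 ≤ x := by linarith
  have hx0 : 0 < x := by linarith
  have hsq : 1 ≤ Real.sqrt x := by rw [Real.one_le_sqrt]; exact hx1
  have hlog : Real.log ((d : ℝ) + 2) ≤ 4 * Real.sqrt x := by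
    have h1 : (d : ℝ) + 2 ≤ x ^ 2 * 2 := by nlinarith
    have h2 : Real.log ((d : ℝ) + 2) ≤ Real.log (2 * x) := by
      apply Real.log_le_log (by linarith)
      linarith
    have h3 : Real.log (2 * x) = Real.log 2 + 2 * Real.log (Real.sqrt x) := by
      rw [Real.log_mul (by norm_num) hx0.ne', Real.log_sqrt hx0.le]; ring
    have h4 : Real.log (Real.sqrt x) ≤ Real.sqrt x - 1 := Real.log_le_sub_one_of_pos (by positivity)
    have h5 : Real.log 2 < 1 := by linarith [Real.log_two_lt_d9]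
    linarith
  have hpow : x ^ ((3 : ℝ) / 2) = x * Real.sqrt x := by
    rw [Real.sqrt_eq_rpow, ← Real.rpow_one_add' hx0.le (by norm_num)]
    norm_num
  have hcast : ((d + 1 : ℕ) : ℝ) = x := by push_cast; rfl
  rw [hcast, hpow, mul_one_div, div_le_div_iff₀ (by positivity) (by positivity)]
  have h6 : 1 + 2 * Real.log ((d : ℝ) + 2) ≤ 9 * Real.sqrt x := by linarith
  have h7 : x ^ 2 ≤ 2 * (1 + (d : ℝ) ^ 2) := by rw [hx]; nlinarith [sq_nonneg ((d : ℝ) - 1)]
  have h8 : Real.sqrt x * Real.sqrt x = x := Real.mul_self_sqrt hx0.le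
  calc (1 + 2 * Real.log ((d : ℝ) + 2)) * (x * Real.sqrt x)
      ≤ (9 * Real.sqrt x) * (x * Real.sqrt x) := by
        apply mul_le_mul_of_nonneg_right h6; positivity
    _ = 9 * x ^ 2 := by linear_combination (9 * x) * h8
    _ ≤ 18 * (1 + (d : ℝ) ^ 2) := by linarith

theorem summable_nat : Summable fun d : ℕ => (1 + 2 * Real.log ((d : ℝ) + 2)) / (1 + (d : ℝ) ^ 2) := by
  refine Summable.of_nonneg_of_le (fun d => ?_) Gn_le ?_
  · have := log_nn d (Nat.cast_nonneg d)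
    positivity
  · apply Summable.mul_left
    have h := Real.summable_one_div_nat_rpow.2 (by norm_num : (1 : ℝ) < 3 / 2)
    exact (summable_nat_add_iff 1).2 h

theorem summable_Gz : Summable Gz := by
  apply Summable.of_nat_of_neg
  · refine summable_nat.congr fun d => ?_
    unfold Gz
    rw [Int.cast_natCast, abs_of_nonneg (Nat.cast_nonneg d)]
  · refine summable_nat.congr fun d => ?_
    unfold Gz
    rw [Int.cast_neg, Int.cast_natCast, abs_neg, abs_of_nonneg (Nat.cast_nonneg d), neg_sq]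

theorem T_CNT : P_CNT := by
  classical
  intro A B g w hW hS
  have hlog2 : (0 : ℝ) < Real.log 2 := Real.log_pos (by norm_num)
  have hB : 0 ≤ B := by
    have h := hS 0 le_rfl ∅ (by simp)
    simp only [card_empty, Nat.cast_zero, zero_add] at h
    by_contra hneg
    push Not at hneg
    nlinarith
  have hg0 : ∀ n, 0 ≤ g n := fun n => (Real.sqrt_nonneg _).trans (hW n).1
  have hCz : 0 ≤ ∑' z : ℤ, Gz z := tsum_nonneg Gz_nonneg
  refine ⟨50 * B * (∑' z : ℤ, Gz z) * ((A : ℝ) + 2), by positivity, ?_⟩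
  intro u hu n s
  set kf : ℕ → ℕ := fun m => ⌊g m⌋₊ with hkf
  set j : ℕ := kf n with hj
  have hk1 : ∀ m, (kf m : ℝ) ≤ g m := fun m => Nat.floor_le (hg0 m)
  have hk2 : ∀ m, g m ≤ (kf m : ℝ) + 1 := fun m => (Nat.lt_floor_add_one (g m)).le
  have hom1 : ∀ m, g m ≤ om g w u m ∧ om g w u m ≤ g m + 1 := by
    intro m
    obtain ⟨-, -, h3, h4⟩ := hW m
    obtain ⟨h5, h6⟩ := hu m
    have h7 : 0 ≤ w m := le_trans (by positivity) h3
    unfold om
    constructor
    · nlinarith [mul_nonneg h7 h5]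
    · nlinarith [mul_le_mul h4 h6 h5 zero_le_one]
  have hj0 : (0 : ℝ) ≤ j := Nat.cast_nonneg j
  have hlj : Real.log 2 ≤ Real.log ((j : ℝ) + 2) := Real.log_le_log (by norm_num) (by linarith)
  have hlj0 : 0 ≤ Real.log ((j : ℝ) + 2) := hlog2.le.trans hlj
  -- the logarithm of `j + 2`
  have hljn : Real.log ((j : ℝ) + 2) ≤ ((A : ℝ) + 2) * Real.log ((n : ℝ) + 2) := by
    have h1 : (j : ℝ) ≤ ((n : ℝ) + 2) ^ A := (hk1 n).trans (hW n).2.1
    have hn : (0 : ℝ) ≤ n := Nat.cast_nonneg n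
    have h2 : (1 : ℝ) ≤ ((n : ℝ) + 2) ^ A := one_le_pow₀ (by linarith)
    have h3 : (j : ℝ) + 2 ≤ ((n : ℝ) + 2) ^ (A + 2) := by
      rw [pow_add]
      have h4 : (4 : ℝ) ≤ ((n : ℝ) + 2) ^ 2 := by nlinarith
      nlinarith
    calc Real.log ((j : ℝ) + 2) ≤ Real.log (((n : ℝ) + 2) ^ (A + 2)) := Real.log_le_log (by linarith) h3
      _ = ((A : ℝ) + 2) * Real.log ((n : ℝ) + 2) := by rw [Real.log_pow]; push_cast; ring
  have hterm : ∀ m ∈ s, 5 / (1 + (om g w u m - om g w u n) ^ 2) ≤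
      50 / (1 + ((kf m : ℝ) - j) ^ 2) := by
    intro m _
    rw [div_le_div_iff₀ (by positivity) (by positivity)]
    have a1 := hom1 m
    have a2 := hom1 n
    have b1 := hk1 m
    have b2 := hk2 m
    have c1 := hk1 n
    have c2 := hk2 n
    set x := om g w u m - om g w u n with hx
    set D := (kf m : ℝ) - j with hD
    have e1 : -2 ≤ D - x := by rw [hD, hx]; linarith [a1.2, a2.1]
    have e2 : D - x ≤ 2 := by rw [hD, hx]; linarith [a1.1, a2.2]
    have e3 : (D - x) ^ 2 ≤ 4 := by nlinarith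
    nlinarith [sq_nonneg (D - 2 * x), sq_nonneg x]
  have hcount : ∀ k ∈ s.image kf, ∑ m ∈ s with kf m = k, 50 / (1 + ((kf m : ℝ) - j) ^ 2) ≤
      (B * Real.log ((k : ℝ) + 2)) * (50 / (1 + ((k : ℝ) - j) ^ 2)) := by
    intro k _
    have h1 : ∑ m ∈ s with kf m = k, 50 / (1 + ((kf m : ℝ) - j) ^ 2) =
        ((s.filter fun m => kf m = k).card : ℝ) * (50 / (1 + ((k : ℝ) - j) ^ 2)) := by
      rw [← nsmul_eq_mul]
      apply Finset.sum_eq_card_nsmul
      intro m hm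
      rw [(mem_filter.1 hm).2]
    rw [h1]
    apply mul_le_mul_of_nonneg_right _ (by positivity)
    refine hS k (Nat.cast_nonneg k) _ fun m hm => ?_
    have h2 := (mem_filter.1 hm).2
    have h3 := hk1 m
    have h4 := hk2 m
    rw [h2] at h3 h4
    exact ⟨h3, h4⟩
  have hlogk : ∀ k : ℕ, (B * Real.log ((k : ℝ) + 2)) * (50 / (1 + ((k : ℝ) - j) ^ 2)) ≤
      50 * B * Real.log ((j : ℝ) + 2) * Gz ((k : ℤ) - j) := by
    intro k
    have hk0 : (0 : ℝ) ≤ k := Nat.cast_nonneg k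
    set d : ℝ := |(k : ℝ) - j| with hd
    have hd0 : 0 ≤ d := abs_nonneg _
    have hkd : (k : ℝ) ≤ j + d := by have := le_abs_self ((k : ℝ) - j); linarith
    have h1 : Real.log ((k : ℝ) + 2) ≤ Real.log ((j : ℝ) + 2) + Real.log (d + 2) := by
      rw [← Real.log_mul (by positivity) (by positivity)]
      apply Real.log_le_log (by linarith)
      nlinarith [mul_nonneg hj0 hd0]
    have h2 : (1 : ℝ) / 2 ≤ Real.log ((j : ℝ) + 2) := by
      have := Real.log_two_gt_d9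
      linarith
    have h3 : 0 ≤ Real.log (d + 2) := log_nn d hd0
    have h4 : Real.log ((k : ℝ) + 2) ≤ Real.log ((j : ℝ) + 2) * (1 + 2 * Real.log (d + 2)) := by
      nlinarith [mul_nonneg h3 (sub_nonneg.2 h2)]
    have h5 : Gz ((k : ℤ) - j) = (1 + 2 * Real.log (d + 2)) / (1 + ((k : ℝ) - j) ^ 2) := by
      unfold Gz
      push_cast
      rfl
    rw [h5]
    calc (B * Real.log ((k : ℝ) + 2)) * (50 / (1 + ((k : ℝ) - j) ^ 2))
        ≤ (B * (Real.log ((j : ℝ) + 2) * (1 + 2 * Real.log (d + 2)))) *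
            (50 / (1 + ((k : ℝ) - j) ^ 2)) := by
          apply mul_le_mul_of_nonneg_right _ (by positivity)
          exact mul_le_mul_of_nonneg_left h4 hB
      _ = 50 * B * Real.log ((j : ℝ) + 2) *
            ((1 + 2 * Real.log (d + 2)) / (1 + ((k : ℝ) - j) ^ 2)) := by ring
  have hsumG : ∑ k ∈ s.image kf, Gz ((k : ℤ) - j) ≤ ∑' z : ℤ, Gz z := by
    have hinj : Set.InjOn (fun k : ℕ => (k : ℤ) - j) (s.image kf : Set ℕ) := by
      intro x _ y _ hxy
      have : (x : ℤ) - j = (y : ℤ) - j := hxy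
      have h2 : (x : ℤ) = y := by linarith
      exact_mod_cast h2
    rw [← Finset.sum_image (f := Gz) hinj]
    exact summable_Gz.sum_le_tsum _ fun z _ => Gz_nonneg z
  calc ∑ m ∈ s, 5 / (1 + (om g w u m - om g w u n) ^ 2)
      ≤ ∑ m ∈ s, 50 / (1 + ((kf m : ℝ) - j) ^ 2) := Finset.sum_le_sum hterm
    _ = ∑ k ∈ s.image kf, ∑ m ∈ s with kf m = k, 50 / (1 + ((kf m : ℝ) - j) ^ 2) :=
        (Finset.sum_fiberwise_of_maps_to (fun m hm => mem_image_of_mem kf hm) _).symm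
    _ ≤ ∑ k ∈ s.image kf, (B * Real.log ((k : ℝ) + 2)) * (50 / (1 + ((k : ℝ) - j) ^ 2)) :=
        Finset.sum_le_sum hcount
    _ ≤ ∑ k ∈ s.image kf, 50 * B * Real.log ((j : ℝ) + 2) * Gz ((k : ℤ) - j) :=
        Finset.sum_le_sum fun k _ => hlogk k
    _ = 50 * B * Real.log ((j : ℝ) + 2) * ∑ k ∈ s.image kf, Gz ((k : ℤ) - j) := by
        rw [Finset.mul_sum]
    _ ≤ 50 * B * Real.log ((j : ℝ) + 2) * ∑' z : ℤ, Gz z := by
        apply mul_le_mul_of_nonneg_left hsumG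
        positivity
    _ ≤ 50 * B * (((A : ℝ) + 2) * Real.log ((n : ℝ) + 2)) * ∑' z : ℤ, Gz z := by
        apply mul_le_mul_of_nonneg_right _ hCz
        apply mul_le_mul_of_nonneg_left hljn
        positivity
    _ = 50 * B * (∑' z : ℤ, Gz z) * ((A : ℝ) + 2) * Real.log ((n : ℝ) + 2) := by ring

end Pool.Agent.H235.FP
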